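import Pool.Agent.Q235.PB.Cells
set_option autoImplicit false
open MeasureTheory
open scoped ENNReal

/-!
# Optimal potentials have bounded finiteness sets

Full answer to Q1 of MP_5ab436_an, with a uniform count of cells.
-/

namespace Pool.Agent.Results.MP_5ab436_an.BoundedFinitenessSets

/-- the class `A_p`: measurable potentials `V` on `ℝ^d` with values in `[0, ∞]` and
`∫ V^(-p) ≤ 1` (in `ℝ≥0∞`, `∞ ^ (-p) = 0` and `0 ^ (-p) = ∞`) -/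
def Adm (d : ℕ) (p : ℝ) (V : (Fin d → ℝ) → ℝ≥0∞) : Prop :=
  AEMeasurable V volume ∧ ∫⁻ x, V x ^ (-p) ≤ 1

/-- `g` is the weak gradient of `u` on `ℝ^d` -/
def IsWeakGrad {d : ℕ} (u : (Fin d → ℝ) → ℝ) (g : Fin d → (Fin d → ℝ) → ℝ) : Prop :=
  ∀ (i : Fin d) (φ : (Fin d → ℝ) → ℝ), ContDiff ℝ ((⊤ : ℕ∞) : WithTop ℕ∞) φ →
    HasCompactSupport φ → ∫ x, u x * fderiv ℝ φ x (Pi.single i (1 : ℝ)) = - ∫ x, g i x * φ x

/-- the integral of the square -/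
noncomputable def sq {d : ℕ} (u : (Fin d → ℝ) → ℝ) : ℝ≥0∞ := ∫⁻ x, ENNReal.ofReal (u x ^ 2)

/-- `u_1, …, u_k` belong to the form domain `H¹_V` (`g_j` the weak gradient of `u_j`) and are
linearly independent in `L²` -/
def IsFrame {d k : ℕ} (V : (Fin d → ℝ) → ℝ≥0∞) (u : Fin k → (Fin d → ℝ) → ℝ)
    (g : Fin k → Fin d → (Fin d → ℝ) → ℝ) : Prop :=
  (∀ j, MemLp (u j) 2 volume) ∧ (∀ j i, MemLp (g j i) 2 volume) ∧
    (∀ j, IsWeakGrad (u j) (g j)) ∧ (∀ j, ∫⁻ x, V x * ENNReal.ofReal (u j x ^ 2) < ∞) ∧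
    ∀ c : Fin k → ℝ, c ≠ 0 → sq (fun x => ∑ j, c j * u j x) ≠ 0

/-- the quadratic form `∫ |∇u|² + ∫ V u²` -/
noncomputable def energy {d : ℕ} (V : (Fin d → ℝ) → ℝ≥0∞) (u : (Fin d → ℝ) → ℝ)
    (g : Fin d → (Fin d → ℝ) → ℝ) : ℝ≥0∞ :=
  ∫⁻ x, ((∑ i, ENNReal.ofReal (g i x ^ 2)) + V x * ENNReal.ofReal (u x ^ 2))

/-- the `k`-th eigenvalue `λ_k(V)` of `-Δ + V` by the min-max formula: the infimum over the
frames `u_1, …, u_k` of the form domain of the largest Rayleigh quotient on their span -/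
noncomputable def lam {d : ℕ} (k : ℕ) (V : (Fin d → ℝ) → ℝ≥0∞) : ℝ≥0∞ :=
  ⨅ (u : Fin k → (Fin d → ℝ) → ℝ) (g : Fin k → Fin d → (Fin d → ℝ) → ℝ) (_ : IsFrame V u g),
    ⨆ (c : Fin k → ℝ) (_ : c ≠ 0),
      energy V (fun x => ∑ j, c j * u j x) (fun i x => ∑ j, c j * g j i x) /
        sq (fun x => ∑ j, c j * u j x)

theorem lam_eq {d : ℕ} (k : ℕ) (V : (Fin d → ℝ) → ℝ≥0∞) :
    lam k V = Pool.Agent.H456R3.S.lamK k V := rfl

/-- `V` is an optimal potential for `λ_k`: a minimizer of `λ_k` over the class `A_p` -/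
def IsOptimal (d k : ℕ) (p : ℝ) (V : (Fin d → ℝ) → ℝ≥0∞) : Prop :=
  Adm d p V ∧ ∀ W, Adm d p W → lam k V ≤ lam k W

/-- `V` is optimal from inside: it minimizes `λ_k` among the potentials of the class `A_p`
which are infinite where `V` is -/
def IsInnerOptimal (d k : ℕ) (p : ℝ) (V : (Fin d → ℝ) → ℝ≥0∞) : Prop :=
  Adm d p V ∧ ∀ W, Adm d p W → (∀ᵐ x, V x = ∞ → W x = ∞) → lam k V ≤ lam k W

/-- up to a null set, `{V < ∞}` is contained in at most `N` cells (unit cubes centred at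
integer points) -/
def InCells {d : ℕ} (V : (Fin d → ℝ) → ℝ≥0∞) (N : ℕ) : Prop :=
  ∃ T : Finset (Fin d → ℤ), T.card ≤ N ∧ ∀ᵐ x, V x ≠ ∞ → (fun i => round (x i)) ∈ T

theorem InCells.bounded {d : ℕ} {V : (Fin d → ℝ) → ℝ≥0∞} {N : ℕ} (h : InCells V N) :
    ∃ R : ℝ, ∀ᵐ x, V x ≠ ∞ → ‖x‖ ≤ R := by
  obtain ⟨T, _, hT⟩ := h
  refine ⟨(∑ a ∈ T, ∑ i, |((a i : ℤ) : ℝ)|) + 1 / 2, ?_⟩
  filter_upwards [hT] with x hx hV
  have h1 := hx hV
  have h0 : 0 ≤ ∑ a ∈ T, ∑ i, |((a i : ℤ) : ℝ)| :=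
    Finset.sum_nonneg fun a _ => Finset.sum_nonneg fun i _ => abs_nonneg _
  rw [pi_norm_le_iff_of_nonneg (by linarith)]
  intro i
  have h2 : |((round (x i) : ℤ) : ℝ)| ≤ ∑ a ∈ T, ∑ i, |((a i : ℤ) : ℝ)| := by
    refine le_trans ?_ (Finset.single_le_sum (f := fun a : Fin d → ℤ => ∑ i, |((a i : ℤ) : ℝ)|)
      (fun a _ => Finset.sum_nonneg fun i _ => abs_nonneg _) h1)
    exact Finset.single_le_sum (f := fun i => |((round (x i) : ℤ) : ℝ)|)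
      (fun i _ => abs_nonneg _) (Finset.mem_univ i)
  have h3 := abs_sub_round (x i)
  calc ‖x i‖ = |(round (x i) : ℝ) + (x i - round (x i))| := by
        rw [Real.norm_eq_abs]; congr 1; ring
    _ ≤ |(round (x i) : ℝ)| + |x i - round (x i)| := abs_add_le _ _
    _ ≤ _ := add_le_add h2 h3

/-- **Answer to Q1: yes.** For all `d ≥ 1`, `0 < p ≤ 1`, `k ≥ 1`:
(1) every optimal potential for `λ_k` has a bounded finiteness set;
(2) the finiteness sets of all optimal potentials for `λ_k` meet (up to null sets) at most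
`N(d, p, k)` unit cells;
(3) (1) and (2) hold for all potentials which are only optimal from inside, with `N` depending
on `d, p, k` and an upper bound of `λ_k`. -/
theorem result (d k : ℕ) (hd : 1 ≤ d) (hk : 1 ≤ k) (p : ℝ) (hp0 : 0 < p) (hp1 : p ≤ 1) :
    (∀ V, IsOptimal d k p V → ∃ R : ℝ, ∀ᵐ x, V x ≠ ∞ → ‖x‖ ≤ R) ∧
    (∃ N : ℕ, ∀ V, IsOptimal d k p V → InCells V N) ∧
    (∀ Λ : ℝ, ∃ N : ℕ, ∀ V, IsInnerOptimal d k p V → lam k V ≤ ENNReal.ofReal Λ →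
      InCells V N ∧ ∃ R : ℝ, ∀ᵐ x, V x ≠ ∞ → ‖x‖ ≤ R) := by
  have h3 : ∀ Λ : ℝ, ∃ N : ℕ, ∀ V, IsInnerOptimal d k p V → lam k V ≤ ENNReal.ofReal Λ →
      InCells V N := by
    intro Λ
    obtain ⟨N, hN⟩ := Pool.Agent.Q235.PB.cells_ae (k := k) d hk hp0 hp1 Λ
    refine ⟨N, fun V hV hle => hN V hV.1.1 hV.1.2 ?_ fun W h1 h2 h3 => ?_⟩
    · rw [← lam_eq]; exact hle
    · rw [← lam_eq, ← lam_eq]; exact hV.2 W ⟨h1, h2⟩ h3
  obtain ⟨W, hW, hW1, hWf⟩ := Pool.Agent.H456R3.S.exists_finite hd k hp0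
  rw [← lam_eq] at hWf
  have h2 : ∃ N : ℕ, ∀ V, IsOptimal d k p V → InCells V N := by
    obtain ⟨N, hN⟩ := h3 (lam k W).toReal
    refine ⟨N, fun V hV => hN V ⟨hV.1, fun W' h1 _ => hV.2 W' h1⟩ ?_⟩
    rw [ENNReal.ofReal_toReal hWf]
    exact hV.2 W ⟨hW.aemeasurable, hW1⟩
  refine ⟨fun V hV => ?_, h2, fun Λ => ?_⟩
  · obtain ⟨N, hN⟩ := h2
    exact (hN V hV).bounded
  · obtain ⟨N, hN⟩ := h3 Λ
    exact ⟨N, fun V hV hle => ⟨hN V hV hle, (hN V hV hle).bounded⟩⟩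

end Pool.Agent.Results.MP_5ab436_an.BoundedFinitenessSets
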